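import Pool.Agent.Work.MP_80ee1d_an.X.DiagD

open CritSys

/-- The set of couplings `β ≥ 0` with a positive ground state on a ball: outside an explicit window
for all parameters, and for all `β` when `l₂ - l₁` or `l₁ + λ₁(Ω)` is small. -/
theorem Pool.Agent.Results.MP_80ee1d_an.BallWindow.result
    (R : ℝ) (hR : 0 < R) (Ω : Set E4) (hΩ : Ω = Metric.ball 0 R)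
    (μ₁ μ₂ : ℝ) (h1 : 0 < μ₁) (h2 : 0 < μ₂) (ρ : ℝ) (hρ : 0 < ρ) :
    ∃ ε : ℝ, 0 < ε ∧ ∀ l₁ l₂ β : ℝ, -lam1 Ω < l₁ → l₁ ≤ l₂ → l₂ < 0 → 0 ≤ β →
      (β ^ 2 < μ₁ * μ₂ ∨ (level1 Ω l₁ μ₁ ≤ level1 Ω l₂ μ₂ ∧ betaHat Ω l₁ μ₁ l₂ < β) ∨
        (level1 Ω l₂ μ₂ ≤ level1 Ω l₁ μ₁ ∧ betaHat Ω l₂ μ₂ l₁ < β) ∨
        (l₁ < l₂ ∧ ∃ w : H01 Ω, PosSol1 l₂ μ₂ w ∧ energy1 l₂ μ₂ w = level1 Ω l₂ μ₂ ∧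
          β * quad l₁ w ≤ μ₁ * quad l₂ w) ∨
        (l₁ < l₂ ∧ ∃ w : H01 Ω, PosSol1 l₁ μ₁ w ∧ energy1 l₁ μ₁ w = level1 Ω l₁ μ₁ ∧
          β * quad l₂ w ≤ μ₂ * quad l₁ w) ∨
        (l₂ ≤ -ρ ∧ ρ ≤ |((lam1 Ω + l₁) / (lam1 Ω + l₂)) ^ 2 * μ₂ - μ₁| ∧
          (l₂ - l₁ < ε ∨ l₁ < -lam1 Ω + ε))) →
      (HasGroundState Ω l₁ l₂ μ₁ μ₂ β ↔
        β < min (betaHat Ω l₁ μ₁ l₂) (betaHat Ω l₂ μ₂ l₁) ∨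
          (μ₁ * μ₂ < β ^ 2 ∧ ((level1 Ω l₁ μ₁ ≤ level1 Ω l₂ μ₂ ∧ betaHat Ω l₁ μ₁ l₂ < β) ∨
            (level1 Ω l₂ μ₂ ≤ level1 Ω l₁ μ₁ ∧ betaHat Ω l₂ μ₂ l₁ < β)))) :=
  final_ball_diag R hR Ω hΩ μ₁ μ₂ h1 h2 ρ hρ
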