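import Pool.Agent.Work.MP_80ee1d_an.W.Final

open CritSys

/-- An exact criterion for a positive ground state on an arbitrary bounded domain: the level
function of two real variables attains its minimum at an inner point. -/
theorem Pool.Agent.Results.MP_80ee1d_an.Criterion.result (Ω : Set E4) (ho : IsOpen Ω)
    (hc : IsConnected Ω) (hb : Bornology.IsBounded Ω) (l₁ l₂ μ₁ μ₂ : ℝ) (k1 : -lam1 Ω < l₁)
    (k2 : l₁ < l₂) (k3 : l₂ < 0) (h1 : 0 < μ₁) (h2 : 0 < μ₂) (β : ℝ) (hβ : 0 ≤ β) :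
    HasGroundState Ω l₁ l₂ μ₁ μ₂ β ↔ ∃ x y : ℝ, sobC Ω l₁ ≤ x ∧ sobC Ω l₂ ≤ y ∧
      Inner μ₁ μ₂ (β * overlap Ω l₁ l₂ x y) x y ∧ ∀ x' y' : ℝ, sobC Ω l₁ ≤ x' → sobC Ω l₂ ≤ y' →
        lev μ₁ μ₂ (β * overlap Ω l₁ l₂ x y) x y ≤ lev μ₁ μ₂ (β * overlap Ω l₁ l₂ x' y') x' y' :=
  final_criterion Ω ho hc hb l₁ l₂ μ₁ μ₂ k1 k2 k3 h1 h2 β hβ
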