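import Pool.Agent.Work.MP_80ee1d_an.X.Win

open CritSys

/-- The set of couplings `β ≥ 0` with a positive ground state on an arbitrary domain, above the
smaller threshold and outside an explicit window; the window is closed for `l₁` near `-λ₁(Ω)`. -/
theorem Pool.Agent.Results.MP_80ee1d_an.DomainWindow.result
    (Ω : Set E4) (ho : IsOpen Ω) (hc : IsConnected Ω)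
    (hb : Bornology.IsBounded Ω) (μ₁ μ₂ : ℝ) (h1 : 0 < μ₁) (h2 : 0 < μ₂) (ρ : ℝ) (hρ : 0 < ρ) :
    ∃ ε : ℝ, 0 < ε ∧ ∀ l₁ l₂ β : ℝ, -lam1 Ω < l₁ → l₁ ≤ l₂ → l₂ < 0 → 0 ≤ β →
      (min (betaHat Ω l₁ μ₁ l₂) (betaHat Ω l₂ μ₂ l₁) ≤ β ∨ μ₁ * μ₂ ≤ β ^ 2 ∨
        l₂ < -lam1 Ω + ε) →
      (β ^ 2 < μ₁ * μ₂ ∨ (level1 Ω l₁ μ₁ ≤ level1 Ω l₂ μ₂ ∧ betaHat Ω l₁ μ₁ l₂ < β) ∨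
        (level1 Ω l₂ μ₂ ≤ level1 Ω l₁ μ₁ ∧ betaHat Ω l₂ μ₂ l₁ < β) ∨
        (l₁ < l₂ ∧ ∃ w : H01 Ω, PosSol1 l₂ μ₂ w ∧ energy1 l₂ μ₂ w = level1 Ω l₂ μ₂ ∧
          β * quad l₁ w ≤ μ₁ * quad l₂ w) ∨
        (l₁ < l₂ ∧ ∃ w : H01 Ω, PosSol1 l₁ μ₁ w ∧ energy1 l₁ μ₁ w = level1 Ω l₁ μ₁ ∧
          β * quad l₂ w ≤ μ₂ * quad l₁ w) ∨
        (l₂ ≤ -ρ ∧ ρ ≤ |((lam1 Ω + l₁) / (lam1 Ω + l₂)) ^ 2 * μ₂ - μ₁| ∧ l₁ < -lam1 Ω + ε)) →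
      (HasGroundState Ω l₁ l₂ μ₁ μ₂ β ↔
        β < min (betaHat Ω l₁ μ₁ l₂) (betaHat Ω l₂ μ₂ l₁) ∨
          (μ₁ * μ₂ < β ^ 2 ∧ ((level1 Ω l₁ μ₁ ≤ level1 Ω l₂ μ₂ ∧ betaHat Ω l₁ μ₁ l₂ < β) ∨
            (level1 Ω l₂ μ₂ ≤ level1 Ω l₁ μ₁ ∧ betaHat Ω l₂ μ₂ l₁ < β)))) :=
  final_window Ω ho hc hb μ₁ μ₂ h1 h2 ρ hρ
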