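import Pool.Agent.Work.MP_80ee1d_an.V.Final

open CritSys

/-- The sharp ranges of couplings for a prescribed ratio `κ = (Λ + l₁) / (Λ + l₂)`, and what can
happen between them. -/
theorem Pool.Agent.Results.MP_80ee1d_an.Sharp.result (μ₁ μ₂ κ : ℝ) (h1 : 0 < μ₁) (h2 : 0 < μ₂)
    (k0 : 0 < κ) (k1 : κ < 1) (A B : Finset ℝ) (hA : ∀ a ∈ A, 0 < a ∧ a ^ 2 ≠ μ₁ * μ₂)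
    (hB : ∀ b ∈ B, 0 < b) (hAB : ∀ a ∈ A, ∀ b ∈ B, a * b ≠ μ₁ * μ₂) :
    (∃ (Ω : Set E4) (l₁ l₂ : ℝ), SmoothDomain Ω ∧ -lam1 Ω < l₁ ∧ l₁ < l₂ ∧ l₂ < 0 ∧
      (lam1 Ω + l₁) / (lam1 Ω + l₂) = κ ∧ (∀ a ∈ A, HasGroundState Ω l₁ l₂ μ₁ μ₂ a) ∧
        ∀ b ∈ B, ¬ HasGroundState Ω l₁ l₂ μ₁ μ₂ b) ↔
      Disjoint A B ∧ (∀ a ∈ A, a ∉ Set.Icc μ₂ μ₁ ∧ a ∉ Set.Icc (μ₁ / κ) (κ * μ₂)) ∧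
        ∀ b ∈ B, b ∈ Set.Ioo (min μ₁ (κ * μ₂)) (max (μ₁ / κ) μ₂) :=
  final_sharp μ₁ μ₂ κ h1 h2 k0 k1 A B hA hB hAB
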